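import Mathlib

/-!
# A small calculus for definability with parameters in a field
-/

set_option autoImplicit false

open FirstOrder FirstOrder.Ring

namespace Pool.Agent.Lib.MP_d255c3_lc

variable {M : Type} [Field M] [CompatibleRing M]

/-- Definable functions, with parameters. -/
def DFn {β : Type} (f : (β → M) → M) : Prop :=
  (Set.univ : Set M).DefinableFun Language.ring f

/-- Definable predicates, with parameters. -/
def DP {β : Type} (P : (β → M) → Prop) : Prop :=
  Set.Definable (Set.univ : Set M) Language.ring {v : β → M | P v}

section Fn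

variable {β : Type}

lemma DFn.var (i : β) : DFn fun v : β → M => v i := Set.DefinableFun.proj _

lemma DFn.const (a : M) : DFn fun _ : β → M => a :=
  Language.definableFun_const _ _ (Set.mem_univ a)

lemma DFn.lift {f : (β → M) → M} (hf : DFn f) : DFn fun w : Option β → M => f (w ∘ some) := by
  have h : Set.Definable (Set.univ : Set M) Language.ring f.tupleGraph := hf
  have h1 := h.preimage_comp (β := Option (Option β))
    (fun i : Option β => match i with
      | none => none
      | some j => some (some j))
  unfold DFn Set.DefinableFun
  convert h1 using 1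
  ext v
  rfl

lemma DFn.add {f g : (β → M) → M} (hf : DFn f) (hg : DFn g) : DFn fun v => f v + g v := by
  have h0 : (Set.univ : Set M).DefinableFun Language.ring (fun v : Fin 2 → M => v 0 + v 1) := by
    refine Set.DefinableFun.of_empty ?_
    have := ((Language.Term.var 0 : Language.ring.Term (Fin 2)) + Language.Term.var 1).definableFun_realize (M := M)
    convert this using 1
    funext v
    simp
  have h1 : (Set.univ : Set M).DefinableMap Language.ring
      (fun v : β → M => (![f v, g v] : Fin 2 → M)) := by
    intro i
    fin_cases i
    · exact hf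
    · exact hg
  exact Set.DefinableFun.comp h1 h0

lemma DFn.mul {f g : (β → M) → M} (hf : DFn f) (hg : DFn g) : DFn fun v => f v * g v := by
  have h0 : (Set.univ : Set M).DefinableFun Language.ring (fun v : Fin 2 → M => v 0 * v 1) := by
    refine Set.DefinableFun.of_empty ?_
    have := ((Language.Term.var 0 : Language.ring.Term (Fin 2)) * Language.Term.var 1).definableFun_realize (M := M)
    convert this using 1
    funext v
    simp
  have h1 : (Set.univ : Set M).DefinableMap Language.ring
      (fun v : β → M => (![f v, g v] : Fin 2 → M)) := by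
    intro i
    fin_cases i
    · exact hf
    · exact hg
  exact Set.DefinableFun.comp h1 h0

lemma DFn.sub {f g : (β → M) → M} (hf : DFn f) (hg : DFn g) : DFn fun v => f v - g v := by
  have h := hf.add ((DFn.const (-1)).mul hg)
  convert h using 2
  ring

lemma DFn.pow {f : (β → M) → M} (hf : DFn f) (n : ℕ) : DFn fun v => f v ^ n := by
  induction n with
  | zero => simpa using DFn.const 1
  | succ n ih => simpa only [pow_succ] using ih.mul hf

end Fn

section Pred

variable {β : Type}

lemma DP.eq {f g : (β → M) → M} (hf : DFn f) (hg : DFn g) : DP fun v => f v = g v :=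
  Set.DefinableFun.ofPred_eq hf hg

lemma DP.and {P Q : (β → M) → Prop} (hP : DP P) (hQ : DP Q) : DP fun v => P v ∧ Q v :=
  Set.Definable.inter hP hQ

lemma DP.or {P Q : (β → M) → Prop} (hP : DP P) (hQ : DP Q) : DP fun v => P v ∨ Q v :=
  Set.Definable.union hP hQ

lemma DP.not {P : (β → M) → Prop} (hP : DP P) : DP fun v => ¬ P v :=
  Set.Definable.compl hP

lemma DP.congr {P Q : (β → M) → Prop} (hP : DP P) (h : ∀ v, P v ↔ Q v) : DP Q := by
  have : P = Q := funext fun v => propext (h v)
  rwa [← this]

lemma DP.imp {P Q : (β → M) → Prop} (hP : DP P) (hQ : DP Q) : DP fun v => P v → Q v :=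
  (hP.not.or hQ).congr fun v => by tauto

lemma DP.ex [Finite β] {P : (β → M) → M → Prop}
    (h : DP fun w : Option β → M => P (w ∘ some) (w none)) : DP fun v => ∃ x, P v x := by
  have h1 := Set.Definable.image_comp h (some : β → Option β)
  unfold DP
  convert h1 using 1
  ext v
  constructor
  · rintro ⟨x, hx⟩
    refine ⟨fun i => i.elim x v, ?_, ?_⟩
    · exact hx
    · funext i
      rfl
  · rintro ⟨w, hw, rfl⟩
    exact ⟨w none, hw⟩

lemma DP.all [Finite β] {P : (β → M) → M → Prop}
    (h : DP fun w : Option β → M => P (w ∘ some) (w none)) : DP fun v => ∀ x, P v x := by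
  have h1 : DP fun w : Option β → M => ¬ P (w ∘ some) (w none) := h.not
  have h2 : DP fun v : β → M => ¬ ∃ x, ¬ P v x := (DP.ex h1).not
  exact h2.congr fun v => by push Not; rfl

end Pred

end Pool.Agent.Lib.MP_d255c3_lc
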