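import Mathlib

/-!
# Artin-Schreier elements of `K(Z)` in characteristic two
-/

set_option autoImplicit false

open Polynomial

namespace Pool.Agent.Lib.MP_d255c3_lc

section Field

variable {K : Type} [Field K]

/-- `x` is a constant. -/
def InK (x : RatFunc K) : Prop := ∃ c : K, x = RatFunc.C c

/-- `x` is a polynomial. -/
def InPoly (x : RatFunc K) : Prop := ∃ f : K[X], x = algebraMap K[X] (RatFunc K) f

/-- Artin-Schreier elements. -/
def AS (t : RatFunc K) : Prop := ∃ w : RatFunc K, t = w ^ 2 - w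

lemma inPoly_iff (x : RatFunc K) : InPoly x ↔ x.denom = 1 := by
  constructor
  · rintro ⟨f, rfl⟩
    exact RatFunc.denom_algebraMap f
  · intro h
    refine ⟨x.num, ?_⟩
    conv_lhs => rw [← RatFunc.num_div_denom x, h, map_one, div_one]

lemma inPoly_of_natDegree {x : RatFunc K} (h : x.denom.natDegree = 0) : InPoly x :=
  (inPoly_iff x).mpr ((RatFunc.monic_denom x).natDegree_eq_zero.mp h)

lemma InK.zero : InK (0 : RatFunc K) := ⟨0, by simp⟩

lemma InK.add {x y : RatFunc K} (hx : InK x) (hy : InK y) : InK (x + y) := by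
  obtain ⟨a, rfl⟩ := hx
  obtain ⟨b, rfl⟩ := hy
  exact ⟨a + b, by simp⟩

lemma InK.mul {x y : RatFunc K} (hx : InK x) (hy : InK y) : InK (x * y) := by
  obtain ⟨a, rfl⟩ := hx
  obtain ⟨b, rfl⟩ := hy
  exact ⟨a * b, by simp⟩

lemma algebraMap_C' (c : K) : algebraMap K[X] (RatFunc K) (Polynomial.C c) = RatFunc.C c := by
  simp

/-- The key divisibility: the denominator of `w` squared divides that of `w ^ 2 - w`. -/
lemma denom_sq_dvd (w : RatFunc K) : w.denom ^ 2 ∣ (w ^ 2 - w).denom := by
  set t := w ^ 2 - w with ht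
  set a := w.num
  set b := w.denom
  have hb : b ≠ 0 := RatFunc.denom_ne_zero w
  have hbm : algebraMap K[X] (RatFunc K) b ≠ 0 := RatFunc.algebraMap_ne_zero hb
  have hd : t.denom ≠ 0 := RatFunc.denom_ne_zero t
  have hdm : algebraMap K[X] (RatFunc K) t.denom ≠ 0 := RatFunc.algebraMap_ne_zero hd
  have hw : w = algebraMap _ _ a / algebraMap _ _ b := (RatFunc.num_div_denom w).symm
  have ht' : algebraMap _ _ t.num / algebraMap _ _ t.denom = t := RatFunc.num_div_denom t
  have hcop : IsCoprime a b := RatFunc.isCoprime_num_denom w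
  have heq : t.num * b ^ 2 = (a ^ 2 - a * b) * t.denom := by
    apply RatFunc.algebraMap_injective K
    have h1 : algebraMap K[X] (RatFunc K) t.num = t * algebraMap _ _ t.denom :=
      (div_eq_iff hdm).mp ht'
    simp only [map_mul, map_sub, map_pow]
    rw [h1]
    have h2 : t * algebraMap K[X] (RatFunc K) b ^ 2 =
        algebraMap _ _ a ^ 2 - algebraMap _ _ a * algebraMap _ _ b := by
      rw [ht, hw]
      field_simp
    rw [← h2]
    ring
  have h2 : IsCoprime (b ^ 2) (a ^ 2 - a * b) := by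
    have h3 : IsCoprime b (a ^ 2 - a * b) := by
      have h4 : IsCoprime b (a ^ 2) := hcop.symm.pow_right
      have h5 : a ^ 2 - a * b = a ^ 2 + b * (-a) := by ring
      rw [h5]
      exact IsCoprime.add_mul_left_right h4 _
    exact h3.pow_left
  exact h2.dvd_of_dvd_mul_left (heq ▸ Dvd.intro_left _ rfl)

lemma two_natDegree_denom_le (w : RatFunc K) :
    2 * w.denom.natDegree ≤ (w ^ 2 - w).denom.natDegree := by
  have := natDegree_le_of_dvd (denom_sq_dvd w) (RatFunc.denom_ne_zero _)
  rwa [natDegree_pow] at this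

lemma inPoly_of_sq_sub {w : RatFunc K} (h : InPoly (w ^ 2 - w)) : InPoly w := by
  have h1 := two_natDegree_denom_le w
  rw [(inPoly_iff _).mp h, natDegree_one] at h1
  exact inPoly_of_natDegree (by omega)

lemma natDegree_sq_sub (a : K[X]) (h : a.natDegree ≠ 0) : (a ^ 2 - a).natDegree = 2 * a.natDegree := by
  rw [natDegree_sub_eq_left_of_natDegree_lt, natDegree_pow]
  rw [natDegree_pow]
  omega

/-- `c Z` is an Artin-Schreier element only for `c = 0`. -/
lemma eq_zero_of_AS_mul_X {c : K} (h : AS (RatFunc.C c * RatFunc.X)) : c = 0 := by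
  obtain ⟨w, hw⟩ := h
  have hX : (RatFunc.X : RatFunc K) = algebraMap K[X] (RatFunc K) X := by simp
  have h1 : InPoly (w ^ 2 - w) := ⟨Polynomial.C c * X, by rw [← hw]; simp⟩
  obtain ⟨a, rfl⟩ := inPoly_of_sq_sub h1
  have h2 : Polynomial.C c * X = a ^ 2 - a := by
    apply RatFunc.algebraMap_injective K
    simp only [map_mul, map_sub, map_pow]
    rw [← hw]
    simp
  by_contra hc
  have h3 : (Polynomial.C c * X : K[X]).natDegree = 1 := natDegree_C_mul_X c hc
  rw [h2] at h3
  by_cases h4 : a.natDegree = 0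
  · have h5 : (a ^ 2 - a).natDegree ≤ 0 := by
      refine (natDegree_sub_le _ _).trans ?_
      rw [natDegree_pow, h4]
      simp
    omega
  · have := natDegree_sq_sub a h4
    omega

end Field

section CharTwo

variable {K : Type} [Field K] [CharP K 2]

instance charP_ratFunc : CharP (RatFunc K) 2 :=
  charP_of_injective_ringHom (f := (RatFunc.C : K →+* RatFunc K)) RatFunc.C_injective 2

lemma AS.add {s t : RatFunc K} (hs : AS s) (ht : AS t) : AS (s + t) := by
  obtain ⟨v, rfl⟩ := hs
  obtain ⟨w, rfl⟩ := ht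
  refine ⟨v + w, ?_⟩
  rw [CharTwo.add_sq]
  ring

lemma AS.neg {s : RatFunc K} (hs : AS s) : AS (-s) := by
  rwa [CharTwo.neg_eq]

lemma AS.sub {s t : RatFunc K} (hs : AS s) (ht : AS t) : AS (s - t) := by
  rw [CharTwo.sub_eq_add]
  exact hs.add ht

lemma AS.zero : AS (0 : RatFunc K) := ⟨0, by simp⟩

/-- `x ^ (2 ^ s) - x` is an Artin-Schreier element. -/
lemma AS_pow_sub (x : RatFunc K) (s : ℕ) : AS (x ^ 2 ^ s - x) := by
  induction s with
  | zero => simpa using AS.zero
  | succ s ih =>
    have h1 : x ^ 2 ^ (s + 1) - x = ((x ^ 2 ^ s) ^ 2 - x ^ 2 ^ s) + (x ^ 2 ^ s - x) := by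
      rw [pow_succ 2 s, pow_mul]
      ring
    rw [h1]
    exact AS.add ⟨_, rfl⟩ ih

variable [IsAlgClosed K]

/-- The descent step. -/
lemma descent {t w : RatFunc K} (ht : ∀ c : K, AS (RatFunc.C c * t)) (hw : t = w ^ 2 - w) :
    ∀ c : K, AS (RatFunc.C c * w) := by
  intro e
  -- `e = k - k ^ 2`
  obtain ⟨k, hk⟩ : ∃ k : K, k ^ 2 - k + e = 0 := by
    have h1 : (X ^ 2 - X + Polynomial.C e : K[X]).degree ≠ 0 := by
      have : (X ^ 2 - X + Polynomial.C e : K[X]).degree = 2 := by compute_degree!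
      rw [this]
      norm_num
    obtain ⟨k, hk⟩ := IsAlgClosed.exists_root _ h1
    refine ⟨k, ?_⟩
    simpa [IsRoot.def] using hk
  obtain ⟨v, hv⟩ := ht (k ^ 2)
  refine ⟨v - RatFunc.C k * w, ?_⟩
  have he : e = k - k ^ 2 := by linear_combination hk
  have h2 : (v - RatFunc.C k * w) ^ 2 = v ^ 2 - (RatFunc.C k * w) ^ 2 := by
    rw [CharTwo.sub_eq_add, CharTwo.add_sq, CharTwo.sub_eq_add]
  rw [h2, he, map_sub, map_pow]
  rw [map_pow, hw] at hv
  linear_combination hv

/-- **L1.** If `K t` consists of Artin-Schreier elements then `t` is a constant. -/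
lemma inK_of_AS {t : RatFunc K} (ht : ∀ c : K, AS (RatFunc.C c * t)) : InK t := by
  -- first step: `t` is a polynomial
  have h1 : ∀ n : ℕ, ∀ t : RatFunc K, (∀ c : K, AS (RatFunc.C c * t)) → t.denom.natDegree ≤ n →
      InPoly t := by
    intro n
    induction n with
    | zero => exact fun t _ h => inPoly_of_natDegree (by omega)
    | succ n ih =>
      intro t ht h
      obtain ⟨w, hw⟩ := ht 1
      rw [map_one, one_mul] at hw
      have h2 := two_natDegree_denom_le w
      rw [← hw] at h2
      obtain ⟨a, ha⟩ := ih w (descent ht hw) (by omega)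
      exact ⟨a ^ 2 - a, by rw [hw, ha]; simp⟩
  have h2 : ∀ n : ℕ, ∀ a : K[X], (∀ c : K, AS (RatFunc.C c * algebraMap K[X] (RatFunc K) a)) →
      a.natDegree ≤ n → a.natDegree = 0 := by
    intro n
    induction n with
    | zero => exact fun a _ h => by omega
    | succ n ih =>
      intro a ha h
      obtain ⟨w, hw⟩ := ha 1
      rw [map_one, one_mul] at hw
      have h3 := descent ha hw
      obtain ⟨b, rfl⟩ := h1 _ w h3 le_rfl
      have h4 : a = b ^ 2 - b := by
        apply RatFunc.algebraMap_injective K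
        rw [hw]
        simp
      by_cases hb : b.natDegree = 0
      · have h5 : (b ^ 2 - b).natDegree ≤ 0 := by
          refine (natDegree_sub_le _ _).trans ?_
          rw [natDegree_pow, hb]
          simp
        rw [h4]
        omega
      · have h5 := natDegree_sq_sub b hb
        rw [← h4] at h5
        have := ih b h3 (by omega)
        omega
  obtain ⟨a, rfl⟩ := h1 _ t ht le_rfl
  have h3 := h2 _ a ht le_rfl
  rw [eq_C_of_natDegree_eq_zero h3]
  exact ⟨a.coeff 0, by simp⟩

end CharTwo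

end Pool.Agent.Lib.MP_d255c3_lc
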