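import Mathlib
import Pool.Agent.Lib.MP_d255c3_lc.Basic

/-!
# The Frobenius powers are uniformly definable
-/

set_option autoImplicit false

open Polynomial

namespace Pool.Agent.Lib.MP_d255c3_lc

section Defs

variable {K : Type} [Field K]

/-- For `u = Z ^ q`, `q` a power of `2`, this relation says `y = x ^ q`. -/
def E (u x y : RatFunc K) : Prop :=
  ∀ d e : RatFunc K, InK d → InK e → AS (e * u - d * RatFunc.X) →
    AS (e * y - d * x) ∧ AS (e * (u * y) - d * (RatFunc.X * x))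

/-- `E u` is the graph of a function. -/
def Good (u : RatFunc K) : Prop := ∀ x, (∃ y, E u x y) ∧ ∀ y y', E u x y → E u x y' → y = y'

/-- The scalar `g` commutes with `E u`. -/
def Cen (u g : RatFunc K) : Prop := ∀ x y, E u x y → E u (g * x) (g * y)

/-- `t` is in the image of `E u - c`. -/
def W (u c t : RatFunc K) : Prop := ∃ w y, E u w y ∧ t = y - c * w

/-- The scalars generated by `g`. -/
def Gam (g c : RatFunc K) : Prop := InK c ∧ ∀ u, Good u → Cen u g → Cen u c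

/-- The formula defining `K[Z]`. -/
def Phi (f : RatFunc K) : Prop :=
  ∃ g, InK g ∧ g ≠ 0 ∧ ∀ u, Good u → Cen u g → ∃ h, W u 1 (f - h) ∧
    ∀ c, Gam g c → c ≠ 0 →
      (g * c = 1 → ∃ a, InK a ∧ W u c (h - a)) ∧
      (g * c ≠ 1 → ∃ z a, InK a ∧ W u c (h - a - RatFunc.X * z) ∧ W u (g * c) (h - z))

end Defs

section CharTwo

variable {K : Type} [Field K] [CharP K 2] [IsAlgClosed K]

lemma exists_pow_eq (c : K) (s : ℕ) : ∃ e : K, e ^ 2 ^ s = c :=
  IsAlgClosed.exists_pow_nat_eq c (by positivity)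

/-- The constants `e, d` with `e Z ^ q - d Z` Artin-Schreier. -/
lemma eq_pow_of_AS {s : ℕ} {d e : K}
    (h : AS (RatFunc.C e * RatFunc.X ^ 2 ^ s - RatFunc.C d * RatFunc.X)) : e = d ^ 2 ^ s := by
  obtain ⟨r, rfl⟩ := exists_pow_eq e s
  have h1 := AS_pow_sub (RatFunc.C r * RatFunc.X : RatFunc K) s
  rw [mul_pow, ← map_pow] at h1
  have h2 := h.sub h1
  have h3 : RatFunc.C (r ^ 2 ^ s) * RatFunc.X ^ 2 ^ s - RatFunc.C d * RatFunc.X -
      (RatFunc.C (r ^ 2 ^ s) * RatFunc.X ^ 2 ^ s - RatFunc.C r * RatFunc.X) =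
      RatFunc.C (r - d) * (RatFunc.X : RatFunc K) := by
    rw [map_sub]
    ring
  rw [h3] at h2
  have h4 := eq_zero_of_AS_mul_X h2
  rw [sub_eq_zero.mp h4]

lemma AS_of_pow (s : ℕ) (d x : RatFunc K) : AS (d ^ 2 ^ s * x ^ 2 ^ s - d * x) := by
  rw [← mul_pow]
  exact AS_pow_sub _ s

/-- `X ^ n` is not constant for `n ≠ 0`. -/
lemma not_inK_X_pow {n : ℕ} (hn : n ≠ 0) {c : K} (h : InK (RatFunc.C c * RatFunc.X ^ n)) :
    c = 0 := by
  obtain ⟨b, hb⟩ := h
  by_contra hc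
  have h1 : Polynomial.C c * X ^ n = Polynomial.C b := by
    apply RatFunc.algebraMap_injective K
    simpa using hb
  have h2 : (Polynomial.C c * X ^ n : K[X]).natDegree = n := natDegree_C_mul_X_pow n c hc
  rw [h1, natDegree_C] at h2
  exact hn h2.symm

/-- **E1.** -/
theorem E_X_pow_iff (s : ℕ) (x y : RatFunc K) : E (RatFunc.X ^ 2 ^ s) x y ↔ y = x ^ 2 ^ s := by
  constructor
  · intro h
    -- all pairs `(d, d ^ q)` are admissible
    have h1 : ∀ d : K, AS (RatFunc.C d ^ 2 ^ s * y - RatFunc.C d * x) ∧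
        AS (RatFunc.C d ^ 2 ^ s * (RatFunc.X ^ 2 ^ s * y) - RatFunc.C d * (RatFunc.X * x)) :=
      fun d => h _ _ ⟨d, rfl⟩ ⟨d ^ 2 ^ s, by rw [map_pow]⟩ (AS_of_pow s _ _)
    have h2 : InK (y - x ^ 2 ^ s) := by
      apply inK_of_AS
      intro c
      obtain ⟨d, rfl⟩ := exists_pow_eq c s
      have h3 := (h1 d).1.sub (AS_of_pow s (RatFunc.C d) x)
      rw [map_pow]
      convert h3 using 1
      ring
    have h4 : InK (RatFunc.X ^ 2 ^ s * (y - x ^ 2 ^ s)) := by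
      apply inK_of_AS
      intro c
      obtain ⟨d, rfl⟩ := exists_pow_eq c s
      have h3 := (h1 d).2.sub (AS_of_pow s (RatFunc.C d) (RatFunc.X * x))
      rw [map_pow]
      convert h3 using 1
      ring
    obtain ⟨c, hc⟩ := h2
    rw [hc, mul_comm] at h4
    have h5 := not_inK_X_pow (by positivity) h4
    rw [h5, map_zero] at hc
    exact sub_eq_zero.mp hc
  · rintro rfl d e ⟨d, rfl⟩ ⟨e, rfl⟩ h
    have h1 := eq_pow_of_AS h
    rw [h1, map_pow, ← mul_pow (RatFunc.X)]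
    exact ⟨AS_of_pow s _ _, AS_of_pow s _ _⟩

theorem good_X_pow (s : ℕ) : Good (RatFunc.X ^ 2 ^ s : RatFunc K) := by
  intro x
  refine ⟨⟨x ^ 2 ^ s, (E_X_pow_iff s _ _).mpr rfl⟩, fun y y' h h' => ?_⟩
  rw [(E_X_pow_iff s _ _).mp h, (E_X_pow_iff s _ _).mp h']

theorem cen_X_pow_iff (s : ℕ) (g : K) :
    Cen (RatFunc.X ^ 2 ^ s : RatFunc K) (RatFunc.C g) ↔ g ^ 2 ^ s = g := by
  constructor
  · intro h
    have h1 := h 1 1 ((E_X_pow_iff s _ _).mpr (by simp))
    rw [E_X_pow_iff, mul_one, ← map_pow] at h1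
    exact (RatFunc.C_injective h1).symm
  · intro h x y hxy
    rw [E_X_pow_iff] at hxy ⊢
    rw [mul_pow, ← map_pow, h, hxy]

theorem W_X_pow_iff (s : ℕ) (c t : RatFunc K) :
    W (RatFunc.X ^ 2 ^ s) c t ↔ ∃ w, t = w ^ 2 ^ s - c * w := by
  constructor
  · rintro ⟨w, y, h, rfl⟩
    exact ⟨w, by rw [(E_X_pow_iff s _ _).mp h]⟩
  · rintro ⟨w, rfl⟩
    exact ⟨w, _, (E_X_pow_iff s _ _).mpr rfl, rfl⟩

end CharTwo

/-! ### General properties of `E` -/

section General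

variable {K : Type} [Field K] [CharP K 2]

lemma E.add {u x y x' y' : RatFunc K} (h : E u x y) (h' : E u x' y') : E u (x + x') (y + y') := by
  intro d e hd he hde
  obtain ⟨h1, h2⟩ := h d e hd he hde
  obtain ⟨h1', h2'⟩ := h' d e hd he hde
  refine ⟨?_, ?_⟩
  · convert h1.add h1' using 1
    ring
  · convert h2.add h2' using 1
    ring

lemma E.zero (u : RatFunc K) : E u 0 0 := by
  intro d e hd he hde
  simp only [mul_zero, sub_zero]
  exact ⟨AS.zero, AS.zero⟩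

lemma Cen.one (u : RatFunc K) : Cen u 1 := fun x y h => by rwa [one_mul, one_mul]

lemma Cen.mul {u g g' : RatFunc K} (h : Cen u g) (h' : Cen u g') : Cen u (g * g') :=
  fun x y hxy => by
    rw [mul_assoc, mul_assoc]
    exact h _ _ (h' _ _ hxy)

lemma Cen.pow {u g : RatFunc K} (h : Cen u g) (n : ℕ) : Cen u (g ^ n) := by
  induction n with
  | zero => rw [pow_zero]; exact Cen.one u
  | succ n ih => rw [pow_succ]; exact ih.mul h

lemma Gam.pow {g : RatFunc K} (hg : InK g) (n : ℕ) : Gam g (g ^ n) := by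
  refine ⟨?_, fun u _ h => h.pow n⟩
  obtain ⟨c, rfl⟩ := hg
  exact ⟨c ^ n, by rw [map_pow]⟩

end General

end Pool.Agent.Lib.MP_d255c3_lc
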