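import Mathlib
import Pool.Agent.Lib.MP_d255c3_lc.Frob

/-!
# Completeness: polynomials satisfy `Phi`
-/

set_option autoImplicit false

open Polynomial

namespace Pool.Agent.Lib.MP_d255c3_lc

section CRT

variable {K : Type} [Field K] {A : RatFunc K → RatFunc K}

/-- Scalars commuting with `A`. -/
def Comm (A : RatFunc K → RatFunc K) (c : K) : Prop := ∀ x, A (RatFunc.C c * x) = RatFunc.C c * A x

lemma exists_prod (hadd : ∀ x y, A (x + y) = A x + A y) (S : Finset K) (hS : ∀ c ∈ S, Comm A c) :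
    ∃ P : RatFunc K → RatFunc K, (∀ c ∈ S, ∀ x, ∃ w, P x = A w - RatFunc.C c * w) ∧
      ∀ d : K, Comm A d → ∀ x, ∃ w,
        P x - RatFunc.C (∏ c ∈ S, (d - c)) * x = A w - RatFunc.C d * w := by
  classical
  have hzero : A 0 = 0 := by
    have := hadd 0 0
    rw [add_zero] at this
    exact left_eq_add.mp this
  have hneg : ∀ x, A (-x) = - A x := fun x => by
    have := hadd x (-x)
    rw [add_neg_cancel, hzero] at this
    exact (neg_eq_of_add_eq_zero_right this.symm).symm
  have hsub : ∀ x y, A (x - y) = A x - A y := fun x y => by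
    rw [sub_eq_add_neg, hadd, hneg, ← sub_eq_add_neg]
  induction S using Finset.induction_on with
  | empty =>
    refine ⟨id, by simp, fun d _ x => ⟨0, ?_⟩⟩
    rw [hzero]
    simp
  | insert c' S hc' ih =>
    obtain ⟨P, hP1, hP2⟩ := ih fun c hc => hS c (Finset.mem_insert_of_mem hc)
    have hcomm : Comm A c' := hS c' (Finset.mem_insert_self _ _)
    refine ⟨fun x => A (P x) - RatFunc.C c' * P x, ?_, ?_⟩
    · intro c hc x
      rcases Finset.mem_insert.mp hc with rfl | hcS
      · exact ⟨P x, rfl⟩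
      · obtain ⟨w, hw⟩ := hP1 c hcS x
        refine ⟨A w - RatFunc.C c' * w, ?_⟩
        have h1 := hS c hc w
        have h2 := hcomm w
        change A (P x) - RatFunc.C c' * P x = _
        rw [hw, hsub, hsub, h1, h2]
        ring
    · intro d hd x
      obtain ⟨w, hw⟩ := hP2 d hd x
      refine ⟨P x + RatFunc.C (d - c') * w, ?_⟩
      rw [Finset.prod_insert hc', map_mul]
      have h1 : A (RatFunc.C (d - c') * w) = RatFunc.C (d - c') * A w := by
        rw [map_sub, sub_mul, sub_mul, hsub, hd w, hcomm w]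
      have h2 : P x = RatFunc.C (∏ c ∈ S, (d - c)) * x + (A w - RatFunc.C d * w) := by
        rw [← hw]
        ring
      rw [hadd, h1]
      have h3 : RatFunc.C (d - c') = RatFunc.C d - (RatFunc.C c' : RatFunc K) := map_sub _ _ _
      linear_combination RatFunc.C (d - c') * h2 - P x * h3

/-- **Chinese remainder theorem** for the operators `A - c`. -/
lemma crt (hadd : ∀ x y, A (x + y) = A x + A y) (S : Finset K) (hS : ∀ c ∈ S, Comm A c)
    (T : K → RatFunc K) : ∃ h, ∀ c ∈ S, ∃ w, h - T c = A w - RatFunc.C c * w := by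
  classical
  induction S using Finset.induction_on with
  | empty => exact ⟨0, by simp⟩
  | insert d S hd ih =>
    have hS' : ∀ c ∈ S, Comm A c := fun c hc => hS c (Finset.mem_insert_of_mem hc)
    obtain ⟨h, hh⟩ := ih hS'
    obtain ⟨P, hP1, hP2⟩ := exists_prod hadd S hS'
    have hne : RatFunc.C (∏ c ∈ S, (d - c)) ≠ (0 : RatFunc K) := by
      rw [_root_.map_ne_zero, Finset.prod_ne_zero_iff]
      intro c hc h0
      exact hd (sub_eq_zero.mp h0 ▸ hc)
    set x := (RatFunc.C (∏ c ∈ S, (d - c)))⁻¹ * (T d - h) with hx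
    refine ⟨h + P x, fun c hc => ?_⟩
    rcases Finset.mem_insert.mp hc with rfl | hcS
    · obtain ⟨w, hw⟩ := hP2 c (hS c hc) x
      refine ⟨w, ?_⟩
      rw [← hw, hx, mul_inv_cancel_left₀ hne]
      ring
    · obtain ⟨w, hw⟩ := hh c hcS
      obtain ⟨w', hw'⟩ := hP1 c hcS x
      refine ⟨w + w', ?_⟩
      rw [hadd]
      linear_combination hw + hw'

end CRT

section Complete

variable {K : Type} [Field K] [CharP K 2] [IsAlgClosed K]

/-- The Horner tails of a polynomial. -/
noncomputable def tail (f : K[X]) (i : ℕ) : K[X] := divX^[i] f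

lemma tail_succ (f : K[X]) (i : ℕ) : tail f i = X * tail f (i + 1) + Polynomial.C ((tail f i).coeff 0) := by
  have h1 : tail f (i + 1) = divX (tail f i) := Function.iterate_succ_apply' _ _ _
  rw [h1, mul_comm]
  exact (divX_mul_X_add _).symm

lemma natDegree_tail (f : K[X]) (i : ℕ) : (tail f i).natDegree = f.natDegree - i := by
  induction i with
  | zero => rfl
  | succ i ih =>
    have h1 : tail f (i + 1) = divX (tail f i) := Function.iterate_succ_apply' _ _ _
    rw [h1, natDegree_divX_eq_natDegree_tsub_one, ih]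
    omega

/-- **Completeness.** -/
theorem Phi_of_inPoly {f : RatFunc K} (hf : InPoly f) : Phi f := by
  classical
  obtain ⟨f, rfl⟩ := hf
  -- a primitive root of unity
  set r := f.natDegree + 1 with hr
  set N := 2 ^ r - 1 with hN
  have hrN : f.natDegree < N := by
    have h1 : r < 2 ^ r := Nat.lt_two_pow_self
    omega
  have hN0 : N ≠ 0 := by omega
  have h2r : N + 1 = 2 ^ r := by
    have := Nat.one_le_two_pow (n := r)
    omega
  have hNK : (N : K) ≠ 0 := by
    intro h
    have h1 : ((N + 1 : ℕ) : K) = 0 := by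
      rw [h2r, Nat.cast_pow]
      have : ((2 : ℕ) : K) = 0 := CharP.cast_eq_zero K 2
      rw [this, zero_pow (by omega)]
    rw [Nat.cast_add, h, Nat.cast_one, zero_add] at h1
    exact one_ne_zero h1
  have : NeZero (N : K) := ⟨hNK⟩
  have : NeZero N := ⟨hN0⟩
  obtain ⟨g, hg⟩ := HasEnoughRootsOfUnity.exists_primitiveRoot K N
  have hg0 : g ≠ 0 := hg.ne_zero hN0
  have hg2 : g ^ 2 ^ r = g := by
    rw [← h2r, pow_succ, hg.pow_eq_one, one_mul]
  refine ⟨RatFunc.C g, ⟨g, rfl⟩, by simpa using hg0, fun u hu hug => ?_⟩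
  -- the function `A`
  choose A hA using fun x => (hu x).1
  have huniq : ∀ x y, E u x y → y = A x := fun x y h => (hu x).2 _ _ h (hA x)
  have hadd : ∀ x y, A (x + y) = A x + A y := fun x y => (huniq _ _ ((hA x).add (hA y))).symm
  have hW : ∀ c t, W u (RatFunc.C c) t ↔ ∃ w, t = A w - RatFunc.C c * w := by
    intro c t
    constructor
    · rintro ⟨w, y, h, rfl⟩
      exact ⟨w, by rw [huniq _ _ h]⟩
    · rintro ⟨w, rfl⟩
      exact ⟨w, _, hA w, rfl⟩
  -- the finite set of scalars
  let T : K → RatFunc K := fun c => if h : ∃ i < N, g ^ i = c then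
    algebraMap K[X] (RatFunc K) (tail f h.choose) else 0
  have hT : ∀ i < N, T (g ^ i) = algebraMap K[X] (RatFunc K) (tail f i) := by
    intro i hi
    have h : ∃ j < N, g ^ j = g ^ i := ⟨i, hi, rfl⟩
    have h1 : h.choose = i := hg.pow_inj h.choose_spec.1 hi h.choose_spec.2
    simp only [T, dif_pos h, h1]
  let S : Finset K := (Finset.range N).image fun i => g ^ i
  have hS : ∀ c ∈ S, Comm A c := by
    intro c hc x
    obtain ⟨i, -, rfl⟩ := Finset.mem_image.mp hc
    have h1 := (hug.pow i) x (A x) (hA x)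
    rw [map_pow]
    exact (huniq _ _ h1).symm
  obtain ⟨h, hh⟩ := crt hadd S hS T
  have hh' : ∀ i < N, ∃ w, h - algebraMap K[X] (RatFunc K) (tail f i) =
      A w - RatFunc.C (g ^ i) * w := by
    intro i hi
    have := hh (g ^ i) (Finset.mem_image.mpr ⟨i, Finset.mem_range.mpr hi, rfl⟩)
    rwa [hT i hi] at this
  -- elements of `Gam g`
  have hGam : ∀ c, Gam (RatFunc.C g) c → c ≠ 0 → ∃ i < N, c = RatFunc.C (g ^ i) := by
    rintro _ ⟨⟨c, rfl⟩, hc⟩ hc0
    have h1 := hc _ (good_X_pow r) ((cen_X_pow_iff r g).mpr hg2)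
    rw [cen_X_pow_iff] at h1
    have hc0' : c ≠ 0 := fun h => hc0 (by rw [h, map_zero])
    have h2 : c ^ N = 1 := by
      have h3 : c * c ^ N = c * 1 := by rw [← pow_succ', h2r, h1, mul_one]
      exact mul_left_cancel₀ hc0' h3
    obtain ⟨i, hi, rfl⟩ := hg.eq_pow_of_pow_eq_one h2
    exact ⟨i, hi, rfl⟩
  refine ⟨h, ?_, ?_⟩
  · have h1 : (1 : RatFunc K) = RatFunc.C (g ^ 0) := by simp
    rw [h1, hW]
    obtain ⟨w, hw⟩ := hh' 0 (by omega)
    refine ⟨w, ?_⟩
    rw [← hw, CharTwo.sub_eq_add, CharTwo.sub_eq_add, add_comm]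
    rfl
  · intro c hc hc0
    obtain ⟨i, hi, rfl⟩ := hGam c hc hc0
    constructor
    · intro h1
      have h2 : g ^ (i + 1) = 1 := by
        apply RatFunc.C_injective
        rw [pow_succ', map_mul, h1, map_one]
      have h3 := (hg.dvd_of_pow_eq_one (i + 1) h2)
      have h4 := Nat.le_of_dvd (by omega) h3
      have h5 : (tail f i).natDegree = 0 := by
        rw [natDegree_tail]
        omega
      obtain ⟨w, hw⟩ := hh' i hi
      refine ⟨RatFunc.C ((tail f i).coeff 0), ⟨_, rfl⟩, (hW _ _).mpr ⟨w, ?_⟩⟩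
      rw [← hw]
      conv_rhs => rw [eq_C_of_natDegree_eq_zero h5]
      simp
    · intro h1
      have h2 : i + 1 < N := by
        by_contra hcon
        have h3 : i + 1 = N := by omega
        apply h1
        rw [← map_mul, ← pow_succ', h3, hg.pow_eq_one, map_one]
      obtain ⟨w, hw⟩ := hh' i hi
      obtain ⟨w', hw'⟩ := hh' (i + 1) h2
      refine ⟨algebraMap K[X] (RatFunc K) (tail f (i + 1)), RatFunc.C ((tail f i).coeff 0),
        ⟨_, rfl⟩, (hW _ _).mpr ⟨w, ?_⟩, ?_⟩
      · rw [← hw]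
        conv_rhs => rw [tail_succ f i]
        simp only [map_add, map_mul, RatFunc.algebraMap_X, RatFunc.algebraMap_C]
        ring
      · rw [← map_mul, ← pow_succ']
        exact (hW _ _).mpr ⟨w', hw'⟩

end Complete

end Pool.Agent.Lib.MP_d255c3_lc
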