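import Mathlib
import Pool.Agent.Lib.MP_d255c3_lc.DefCalc
import Pool.Agent.Lib.MP_d255c3_lc.Const
import Pool.Agent.Lib.MP_d255c3_lc.Sound
import Pool.Agent.Lib.MP_d255c3_lc.Complete

/-!
# Definability of `K[Z]` and of a valuation ring in `K(Z)`
-/

set_option autoImplicit false

open FirstOrder FirstOrder.Ring

namespace Pool.Agent.Lib.MP_d255c3_lc

section

variable {K : Type} [Field K] [CompatibleRing (RatFunc K)]
variable {β : Type} [Finite β] {f g h k : (β → RatFunc K) → RatFunc K}

lemma DP.AS (hf : DFn f) : DP fun v => AS (f v) :=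
  DP.ex (.eq hf.lift (((DFn.var none).pow 2).sub (DFn.var none)))

variable [CharP K 2] [IsAlgClosed K]

lemma DP.InK (hf : DFn f) : DP fun v => InK (f v) := by
  have h1 : DP fun v => ∃ y z : RatFunc K, f v = y ^ 3 ∧ f v + 1 = z ^ 3 :=
    DP.ex (DP.ex (.and (.eq hf.lift.lift ((DFn.var (some none)).pow 3))
      (.eq (hf.lift.lift.add (DFn.const 1)) ((DFn.var none).pow 3))))
  exact h1.congr fun v => (inK_iff (f v)).symm

lemma DP.E (hf : DFn f) (hg : DFn g) (hh : DFn h) : DP fun v => E (f v) (g v) (h v) := by
  have hf' := hf.lift.lift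
  have hg' := hg.lift.lift
  have hh' := hh.lift.lift
  have hX : DFn fun _ : Option (Option β) → RatFunc K => (RatFunc.X : RatFunc K) := DFn.const _
  have hd : DFn fun w : Option (Option β) → RatFunc K => w (some none) := DFn.var _
  have he : DFn fun w : Option (Option β) → RatFunc K => w none := DFn.var _
  exact DP.all (DP.all (.imp (.InK hd) (.imp (.InK he)
    (.imp (.AS ((he.mul hf').sub (hd.mul hX)))
      (.and (.AS ((he.mul hh').sub (hd.mul hg')))
        (.AS ((he.mul (hf'.mul hh')).sub (hd.mul (hX.mul hg')))))))))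

lemma DP.Good (hf : DFn f) : DP fun v => Good (f v) := by
  refine DP.all (.and (DP.ex (.E hf.lift.lift (DFn.var (some none)) (DFn.var none)))
    (DP.all (DP.all (.imp (.E hf.lift.lift.lift (DFn.var (some (some none))) (DFn.var (some none)))
      (.imp (.E hf.lift.lift.lift (DFn.var (some (some none))) (DFn.var none))
        (.eq (DFn.var (some none)) (DFn.var none)))))))

lemma DP.Cen (hf : DFn f) (hg : DFn g) : DP fun v => Cen (f v) (g v) :=
  DP.all (DP.all (.imp (.E hf.lift.lift (DFn.var (some none)) (DFn.var none))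
    (.E hf.lift.lift (hg.lift.lift.mul (DFn.var (some none)))
      (hg.lift.lift.mul (DFn.var none)))))

lemma DP.W (hf : DFn f) (hg : DFn g) (hh : DFn h) : DP fun v => W (f v) (g v) (h v) :=
  DP.ex (DP.ex (.and (.E hf.lift.lift (DFn.var (some none)) (DFn.var none))
    (.eq hh.lift.lift ((DFn.var none).sub (hg.lift.lift.mul (DFn.var (some none)))))))

lemma DP.Gam (hf : DFn f) (hg : DFn g) : DP fun v => Gam (f v) (g v) :=
  .and (.InK hg) (DP.all (.imp (.Good (DFn.var none)) (.imp (.Cen (DFn.var none) hf.lift)
    (.Cen (DFn.var none) hg.lift))))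

lemma DP.Phi (hf : DFn f) : DP fun v => Phi (f v) := by
  refine DP.ex (.and (.InK (DFn.var none)) (.and (DP.not (.eq (DFn.var none) (DFn.const 0)))
    (DP.all (.imp (.Good (DFn.var none)) (.imp (.Cen (DFn.var none) (DFn.var (some none)))
      (DP.ex (.and (.W (DFn.var (some none)) (DFn.const 1) (hf.lift.lift.lift.sub (DFn.var none)))
        (DP.all ?_))))))))
  refine .imp (.Gam (DFn.var (some (some (some none)))) (DFn.var none)) (.imp (DP.not (.eq (DFn.var none) (DFn.const 0))) (.and ?_ ?_))
  · exact .imp (.eq ((DFn.var (some (some (some none)))).mul (DFn.var none)) (DFn.const 1))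
      (DP.ex (.and (.InK (DFn.var none)) (.W (DFn.var (some (some (some none))))
        (DFn.var (some none)) ((DFn.var (some (some none))).sub (DFn.var none)))))
  · refine .imp (DP.not (.eq ((DFn.var (some (some (some none)))).mul (DFn.var none)) (DFn.const 1)))
      (DP.ex (DP.ex (.and (.InK (DFn.var none)) (.and ?_ ?_))))
    · exact .W (DFn.var (some (some (some (some none))))) (DFn.var (some (some none)))
        (((DFn.var (some (some (some none)))).sub (DFn.var none)).sub
          ((DFn.const RatFunc.X).mul (DFn.var (some none))))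
    · exact .W (DFn.var (some (some (some (some none)))))
        ((DFn.var (some (some (some (some (some none)))))).mul (DFn.var (some (some none))))
        ((DFn.var (some (some (some none)))).sub (DFn.var (some none)))

lemma DP.InPoly (hK : ∀ g : K, ∃ r, 0 < r ∧ g ^ 2 ^ r = g) (hf : DFn f) :
    DP fun v => InPoly (f v) :=
  (DP.Phi hf).congr fun _ => ⟨inPoly_of_Phi hK, Phi_of_inPoly⟩

end

end Pool.Agent.Lib.MP_d255c3_lc
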