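import Mathlib
import Pool.Agent.Lib.MP_d255c3_lc.DefPhi

/-!
# A definable valuation ring in `K(Z)`, `K` the algebraic closure of the field with two elements
-/

set_option autoImplicit false

open FirstOrder FirstOrder.Ring Polynomial

namespace Pool.Agent.Lib.MP_d255c3_lc

section Ring

variable {K : Type} [Field K]

lemma X_not_dvd_of_dvd {a b : K[X]} (h : a ∣ b) (hb : ¬ X ∣ b) : ¬ X ∣ a :=
  fun ha => hb (ha.trans h)

lemma X_not_dvd_mul {a b : K[X]} (ha : ¬ X ∣ a) (hb : ¬ X ∣ b) : ¬ X ∣ a * b := fun h =>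
  (prime_X.dvd_or_dvd h).elim ha hb

variable (K) in
/-- The ring of the rational functions which are regular at `0`. -/
noncomputable def R0 : ValuationSubring (RatFunc K) where
  carrier := {f | ¬ X ∣ f.denom}
  mul_mem' := fun {a b} ha hb =>
    X_not_dvd_of_dvd (RatFunc.denom_mul_dvd a b) (X_not_dvd_mul ha hb)
  one_mem' := by
    rw [Set.mem_ofPred_eq, RatFunc.denom_one]
    exact prime_X.not_dvd_one
  add_mem' := fun {a b} ha hb =>
    X_not_dvd_of_dvd (RatFunc.denom_add_dvd a b) (X_not_dvd_mul ha hb)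
  zero_mem' := by
    rw [Set.mem_ofPred_eq, RatFunc.denom_zero]
    exact prime_X.not_dvd_one
  neg_mem' := fun {a} ha => by
    have h1 : -a = RatFunc.C (-1) * a := by simp
    rw [Set.mem_ofPred_eq, h1]
    refine X_not_dvd_of_dvd (RatFunc.denom_mul_dvd _ a) (X_not_dvd_mul ?_ ha)
    have h2 : RatFunc.C (-1 : K) = algebraMap K[X] (RatFunc K) (Polynomial.C (-1)) := by simp
    rw [h2, RatFunc.denom_algebraMap]
    exact prime_X.not_dvd_one
  mem_or_inv_mem' := fun a => by
    by_cases h : X ∣ a.denom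
    · right
      have ha : a ≠ 0 := by
        rintro rfl
        rw [RatFunc.denom_zero] at h
        exact prime_X.not_dvd_one h
      refine X_not_dvd_of_dvd (RatFunc.denom_inv_dvd ha) fun h' => ?_
      exact prime_X.not_isUnit ((RatFunc.isCoprime_num_denom a).isUnit_of_dvd' h' h)
    · exact Or.inl h

lemma mem_R0 (f : RatFunc K) : f ∈ R0 K ↔ ¬ X ∣ f.denom := Iff.rfl

lemma mem_R0_iff (f : RatFunc K) : f ∈ R0 K ↔
    ∃ a b : RatFunc K, InPoly a ∧ InPoly b ∧ (¬ ∃ c, InPoly c ∧ b = RatFunc.X * c) ∧ f * b = a := by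
  rw [mem_R0]
  constructor
  · intro h
    refine ⟨algebraMap _ _ f.num, algebraMap _ _ f.denom, ⟨_, rfl⟩, ⟨_, rfl⟩, ?_, ?_⟩
    · rintro ⟨_, ⟨c, rfl⟩, hc⟩
      apply h
      refine ⟨c, RatFunc.algebraMap_injective K ?_⟩
      rw [hc, map_mul, RatFunc.algebraMap_X]
    · have h1 : algebraMap K[X] (RatFunc K) f.denom ≠ 0 :=
        RatFunc.algebraMap_ne_zero (RatFunc.denom_ne_zero f)
      exact ((div_eq_iff h1).mp (RatFunc.num_div_denom f)).symm
  · rintro ⟨_, _, ⟨a, rfl⟩, ⟨b, rfl⟩, hb, hf⟩ h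
    have hXb : ¬ X ∣ b := by
      rintro ⟨c, rfl⟩
      exact hb ⟨algebraMap _ _ c, ⟨c, rfl⟩, by rw [map_mul, RatFunc.algebraMap_X]⟩
    have hb0 : b ≠ 0 := fun h0 => hXb (h0 ▸ dvd_zero X)
    have hbm : algebraMap K[X] (RatFunc K) b ≠ 0 := RatFunc.algebraMap_ne_zero hb0
    have h1 : f.denom ∣ b := (RatFunc.denom_dvd hb0).mpr ⟨a, eq_div_of_mul_eq hbm hf⟩
    exact hXb (h.trans h1)

lemma R0_ne_top : R0 K ≠ ⊤ := by
  intro h
  have h1 : (RatFunc.X : RatFunc K)⁻¹ ∈ R0 K := by
    rw [h]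
    exact ValuationSubring.mem_top _
  rw [mem_R0_iff] at h1
  obtain ⟨_, _, ⟨a, rfl⟩, ⟨b, rfl⟩, hb, hf⟩ := h1
  refine hb ⟨_, ⟨a, rfl⟩, ?_⟩
  rw [← hf, ← mul_assoc, mul_inv_cancel₀ RatFunc.X_ne_zero, one_mul]

end Ring

section Closure

/-- The algebraic closure of the field with two elements. -/
abbrev KK : Type := AlgebraicClosure (ZMod 2)

instance : CharP KK 2 := charP_of_injective_algebraMap (algebraMap (ZMod 2) KK).injective 2

lemma exists_pow_eq_self (g : KK) : ∃ r, 0 < r ∧ g ^ 2 ^ r = g := by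
  have hint : IsIntegral (ZMod 2) g := Algebra.IsIntegral.isIntegral g
  have : FiniteDimensional (ZMod 2) (IntermediateField.adjoin (ZMod 2) {g}) :=
    IntermediateField.adjoin.finiteDimensional hint
  have : Finite (IntermediateField.adjoin (ZMod 2) {g}) := Module.finite_of_finite (ZMod 2)
  letI := Fintype.ofFinite (IntermediateField.adjoin (ZMod 2) {g})
  refine ⟨Module.finrank (ZMod 2) (IntermediateField.adjoin (ZMod 2) {g}), Module.finrank_pos, ?_⟩
  have h1 := FiniteField.pow_card (⟨g, IntermediateField.mem_adjoin_simple_self (ZMod 2) g⟩ :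
    IntermediateField.adjoin (ZMod 2) {g})
  rw [Module.card_eq_pow_finrank (K := ZMod 2), ZMod.card] at h1
  exact congrArg Subtype.val h1

theorem definable_R0 [CompatibleRing (RatFunc KK)] :
    Set.Definable (Set.univ : Set (RatFunc KK)) Language.ring
      {x : Fin 1 → RatFunc KK | x 0 ∈ R0 KK} := by
  have h : DP fun x : Fin 1 → RatFunc KK => ∃ a b : RatFunc KK, InPoly a ∧ InPoly b ∧
      (¬ ∃ c, InPoly c ∧ b = RatFunc.X * c) ∧ x 0 * b = a :=
    DP.ex (DP.ex (.and (.InPoly exists_pow_eq_self (DFn.var (some none)))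
      (.and (.InPoly exists_pow_eq_self (DFn.var none))
        (.and (DP.not (DP.ex (.and (.InPoly exists_pow_eq_self (DFn.var none))
          (.eq (DFn.var (some none)) ((DFn.const RatFunc.X).mul (DFn.var none))))))
          (.eq ((DFn.var (some (some 0))).mul (DFn.var none)) (DFn.var (some none)))))))
  exact h.congr fun x => (mem_R0_iff (x 0)).symm

end Closure

end Pool.Agent.Lib.MP_d255c3_lc
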